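import Mathlib
import Pool.Agent.H308R2.ZS.Stubs

/-!
Task TR0 (helper804, for the project of helper308 and helper923): traces on the dimension drop
algebra vanish on fibrewise trace zero elements.
-/

set_option autoImplicit false

open scoped ComplexConjugate Kronecker Matrix.Norms.L2Operator

namespace Pool.Agent.H308R2.ZS.T_TR0

open Pool.Agent.H923R2.FP Pool.Agent.H923R2.FZ Pool.Agent.H308R2.ZS

/-- `g ⊗ M` -/
noncomputable def cm {n : ℕ} (g : C(unitInterval, ℝ)) (M : MM n) : C(unitInterval, MM n) :=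
  ⟨fun t => ((g t : ℝ) : ℂ) • M, by fun_prop⟩

theorem cm_mem {n : ℕ} (g : C(unitInterval, ℝ)) (M : MM n)
    (h0 : g 0 = 0 ∨ ∃ x, M = lft n x) (h1 : g 1 = 0 ∨ ∃ y, M = rgt n y) : cm g M ∈ dimDrop n := by
  constructor
  · rcases h0 with h0 | ⟨x, hx⟩
    · refine ⟨0, ?_⟩
      have h2 : lft n 0 = 0 := Matrix.zero_kronecker _
      rw [h2]
      change ((g 0 : ℝ) : ℂ) • M = 0
      rw [h0, Complex.ofReal_zero, zero_smul]
    · refine ⟨((g 0 : ℝ) : ℂ) • x, ?_⟩
      rw [lft_smul, ← hx]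
      rfl
  · rcases h1 with h1 | ⟨x, hx⟩
    · refine ⟨0, ?_⟩
      have h2 : rgt n 0 = 0 := Matrix.kronecker_zero _
      rw [h2]
      change ((g 1 : ℝ) : ℂ) • M = 0
      rw [h1, Complex.ofReal_zero, zero_smul]
    · refine ⟨((g 1 : ℝ) : ℂ) • x, ?_⟩
      rw [rgt_smul, ← hx]
      rfl

theorem closed_dimDrop (n : ℕ) : IsClosed (dimDrop n : Set C(unitInterval, MM n)) := by
  let Lf : Matrix (Fin (n + 1)) (Fin (n + 1)) ℂ →ₗ[ℂ] MM n :=
    { toFun := lft n
      map_add' := fun x y => (lft_add n x y).symm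
      map_smul' := fun c x => lft_smul n c x }
  let Rg : Matrix (Fin (n + 2)) (Fin (n + 2)) ℂ →ₗ[ℂ] MM n :=
    { toFun := rgt n
      map_add' := fun x y => (rgt_add n x y).symm
      map_smul' := fun c x => rgt_smul n c x }
  have h1 : IsClosed ((LinearMap.range Lf : Submodule ℂ (MM n)) : Set (MM n)) :=
    Submodule.closed_of_finiteDimensional _
  have h2 : IsClosed ((LinearMap.range Rg : Submodule ℂ (MM n)) : Set (MM n)) :=
    Submodule.closed_of_finiteDimensional _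
  have h3 : (dimDrop n : Set C(unitInterval, MM n))
      = (fun F : C(unitInterval, MM n) => F 0) ⁻¹' (LinearMap.range Lf : Submodule ℂ (MM n)) ∩
        (fun F : C(unitInterval, MM n) => F 1) ⁻¹' (LinearMap.range Rg : Submodule ℂ (MM n)) := by
    ext F
    constructor
    · rintro ⟨⟨x, hx⟩, y, hy⟩
      exact ⟨⟨x, hx.symm⟩, y, hy.symm⟩
    · rintro ⟨⟨x, hx⟩, y, hy⟩
      exact ⟨⟨x, hx.symm⟩, y, hy.symm⟩
  rw [h3]
  exact (h1.preimage (by fun_prop)).inter (h2.preimage (by fun_prop))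

theorem norm_le {n : ℕ} {B : Type} [CStarAlgebra B] (d : dimDrop n →⋆ₐ[ℂ] B) (F : dimDrop n) :
    ‖d F‖ ≤ ‖(F : C(unitInterval, MM n))‖ := by
  have : IsClosed (dimDrop n : Set C(unitInterval, MM n)) := closed_dimDrop n
  let : CStarAlgebra (dimDrop n) := StarSubalgebra.cstarAlgebra (dimDrop n)
  exact NonUnitalStarAlgHom.norm_apply_le d F

theorem case_zero (hMAT : S_TRMAT) {n : ℕ} {B : Type} [CStarAlgebra B] (τ : B →ₗ[ℂ] ℂ)
    (hτ : TS τ) (d : dimDrop n →⋆ₐ[ℂ] B) (ι : Type) [Fintype ι] [DecidableEq ι] [Nonempty ι]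
    (s : Matrix ι ι ℂ →ₗ[ℂ] MM n) (hs : ∀ x y, s (x * y) = s x * s y) (g : C(unitInterval, ℝ))
    (hg : ∀ t, 0 ≤ g t)
    (hmem : ∀ g' : C(unitInterval, ℝ), (∀ t, g t = 0 → g' t = 0) → ∀ x, cm g' (s x) ∈ dimDrop n)
    (x : Matrix ι ι ℂ) (hx : ntr x = 0) (h : cm g (s x) ∈ dimDrop n) :
    τ (d ⟨cm g (s x), h⟩) = 0 := by
  have hmg : ∀ x, cm g (s x) ∈ dimDrop n := hmem g fun _ h => h
  let r : C(unitInterval, ℝ) := ⟨fun t => Real.sqrt (g t), by fun_prop⟩
  have hmr : ∀ x, cm r (s x) ∈ dimDrop n := hmem r fun t ht => by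
    change Real.sqrt (g t) = 0
    rw [ht, Real.sqrt_zero]
  have hmul : ∀ x y : Matrix ι ι ℂ, (⟨cm g (s (x * y)), hmg (x * y)⟩ : dimDrop n)
      = ⟨cm r (s x), hmr x⟩ * ⟨cm r (s y), hmr y⟩ := by
    intro x y
    refine Subtype.ext (ContinuousMap.ext fun t => ?_)
    change ((g t : ℝ) : ℂ) • s (x * y)
      = (((Real.sqrt (g t)) : ℝ) : ℂ) • s x * (((Real.sqrt (g t)) : ℝ) : ℂ) • s y
    rw [smul_mul_smul_comm, ← Complex.ofReal_mul, Real.mul_self_sqrt (hg t), hs]
  let L : Matrix ι ι ℂ →ₗ[ℂ] ℂ :=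
    { toFun := fun x => τ (d ⟨cm g (s x), hmg x⟩)
      map_add' := by
        intro x y
        rw [← map_add, ← map_add]
        congr 2
        refine Subtype.ext (ContinuousMap.ext fun t => ?_)
        change ((g t : ℝ) : ℂ) • s (x + y) = ((g t : ℝ) : ℂ) • s x + ((g t : ℝ) : ℂ) • s y
        rw [map_add, smul_add]
      map_smul' := by
        intro c x
        rw [RingHom.id_apply, ← map_smul, ← map_smul]
        congr 2
        refine Subtype.ext (ContinuousMap.ext fun t => ?_)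
        change ((g t : ℝ) : ℂ) • s (c • x) = c • ((g t : ℝ) : ℂ) • s x
        rw [map_smul, smul_comm] }
  have hL : ∀ x y, L (x * y) = L (y * x) := by
    intro x y
    change τ (d ⟨cm g (s (x * y)), _⟩) = τ (d ⟨cm g (s (y * x)), _⟩)
    rw [hmul x y, hmul y x, map_mul d, map_mul d]
    exact hτ.comm _ _
  have h1 := hMAT ι L hL x
  rw [hx, zero_mul] at h1
  exact h1

theorem ntr_eq {ι : Type} [Fintype ι] (M : Matrix ι ι ℂ) :
    ntr M = Matrix.trace M / (Fintype.card ι : ℂ) := rfl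

theorem ntr_lft {n : ℕ} {x : Matrix (Fin (n + 1)) (Fin (n + 1)) ℂ} (h : ntr (lft n x) = 0) :
    ntr x = 0 := by
  rw [ntr_eq] at h ⊢
  unfold lft at h
  rw [Matrix.trace_kronecker, Matrix.trace_one, div_eq_zero_iff] at h
  rcases h with h | h
  · rcases mul_eq_zero.1 h with h | h
    · rw [h, zero_div]
    · exact absurd h (Nat.cast_ne_zero.2 Fintype.card_ne_zero)
  · exact absurd h (Nat.cast_ne_zero.2 Fintype.card_ne_zero)

theorem ntr_rgt {n : ℕ} {x : Matrix (Fin (n + 2)) (Fin (n + 2)) ℂ} (h : ntr (rgt n x) = 0) :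
    ntr x = 0 := by
  rw [ntr_eq] at h ⊢
  unfold rgt at h
  rw [Matrix.trace_kronecker, Matrix.trace_one, div_eq_zero_iff] at h
  rcases h with h | h
  · rcases mul_eq_zero.1 h with h | h
    · exact absurd h (Nat.cast_ne_zero.2 Fintype.card_ne_zero)
    · rw [h, zero_div]
  · exact absurd h (Nat.cast_ne_zero.2 Fintype.card_ne_zero)

theorem bern_zero {m k : ℕ} (hk : k ≠ 0) : bernstein m k 0 = 0 := by
  rw [bernstein_apply]
  simp [hk]

theorem bern_one {m k : ℕ} (hk : k < m) : bernstein m k 1 = 0 := by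
  rw [bernstein_apply]
  have : m - k ≠ 0 := by omega
  simp [this]

instance lcs (n : ℕ) : LocallyConvexSpace ℝ (MM n) :=
  inferInstanceAs (LocallyConvexSpace ℝ (Ix n → Ix n → ℂ))

theorem term_zero (hMAT : S_TRMAT) {n : ℕ} {B : Type} [CStarAlgebra B] (τ : B →ₗ[ℂ] ℂ)
    (hτ : TS τ) (d : dimDrop n →⋆ₐ[ℂ] B) (F : dimDrop n)
    (hF : ∀ t : unitInterval, ntr ((F : C(unitInterval, MM n)) t) = 0) (m : ℕ) (hm : m ≠ 0)
    (k : Fin (m + 1)) : ∃ h : cm (bernstein m k) ((F : C(unitInterval, MM n)) (bernstein.z k))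
      ∈ dimDrop n, τ (d ⟨_, h⟩) = 0 := by
  have hpos : ∀ t, 0 ≤ bernstein m k t := fun t => bernstein_nonneg
  obtain ⟨⟨x, hx⟩, y, hy⟩ := F.2
  by_cases h0 : k = 0
  · subst h0
    have e : (F : C(unitInterval, MM n)) (bernstein.z (0 : Fin (m + 1))) = lft n x := by
      rw [bernstein.z_zero]
      exact hx
    rw [e]
    have hx0 : ntr x = 0 := by
      apply ntr_lft (n := n)
      rw [← hx]
      exact hF 0
    have h1 : bernstein m ((0 : Fin (m + 1)) : ℕ) 1 = 0 := bern_one (by simpa using Nat.pos_of_ne_zero hm)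
    have h2 : cm (bernstein m ((0 : Fin (m + 1)) : ℕ)) (lft n x) ∈ dimDrop n :=
      cm_mem _ _ (Or.inr ⟨x, rfl⟩) (Or.inl h1)
    refine ⟨h2, ?_⟩
    exact case_zero hMAT τ hτ d (Fin (n + 1))
      { toFun := lft n
        map_add' := fun x y => (lft_add n x y).symm
        map_smul' := fun c x => lft_smul n c x } (fun x y => (lft_mul n x y).symm) _ hpos
      (fun g' hg' x => cm_mem _ _ (Or.inr ⟨x, rfl⟩) (Or.inl (hg' 1 h1))) x hx0 h2
  by_cases hl : k = Fin.last m
  · subst hl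
    have e : (F : C(unitInterval, MM n)) (bernstein.z (Fin.last m)) = rgt n y := by
      rw [bernstein.z_last hm]
      exact hy
    rw [e]
    have hy0 : ntr y = 0 := by
      apply ntr_rgt (n := n)
      rw [← hy]
      exact hF 1
    have h1 : bernstein m ((Fin.last m : Fin (m + 1)) : ℕ) 0 = 0 := bern_zero (by simpa using hm)
    have h2 : cm (bernstein m ((Fin.last m : Fin (m + 1)) : ℕ)) (rgt n y) ∈ dimDrop n :=
      cm_mem _ _ (Or.inl h1) (Or.inr ⟨y, rfl⟩)
    refine ⟨h2, ?_⟩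
    exact case_zero hMAT τ hτ d (Fin (n + 2))
      { toFun := rgt n
        map_add' := fun x y => (rgt_add n x y).symm
        map_smul' := fun c x => rgt_smul n c x } (fun x y => (rgt_mul n x y).symm) _ hpos
      (fun g' hg' x => cm_mem _ _ (Or.inl (hg' 0 h1)) (Or.inr ⟨x, rfl⟩)) y hy0 h2
  · have h1 : bernstein m k 0 = 0 := bern_zero fun h => h0 (Fin.ext (by simpa using h))
    have h2 : bernstein m k 1 = 0 := by
      refine bern_one ?_
      have h3 := k.2
      have h4 : (k : ℕ) ≠ m := fun h => hl (Fin.ext (by simpa using h))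
      omega
    have h3 : cm (bernstein m k) ((F : C(unitInterval, MM n)) (bernstein.z k)) ∈ dimDrop n :=
      cm_mem _ _ (Or.inl h1) (Or.inl h2)
    refine ⟨h3, ?_⟩
    exact case_zero hMAT τ hτ d (Ix n) LinearMap.id (fun x y => rfl) _ hpos
      (fun g' hg' x => cm_mem _ _ (Or.inl (hg' 0 h1)) (Or.inl (hg' 1 h2))) _ (hF _) h3

theorem bern_eq {n : ℕ} (f : C(unitInterval, MM n)) (m : ℕ) :
    bernsteinApproximation m f
      = ∑ k : Fin (m + 1), cm (bernstein m k) (f (bernstein.z k)) := by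
  refine ContinuousMap.ext fun t => ?_
  rw [bernsteinApproximation.apply, ContinuousMap.sum_apply]
  refine Finset.sum_congr rfl fun k _ => ?_
  refine Matrix.ext fun i j => ?_
  change (bernstein m k t : ℝ) • (f (bernstein.z k) i j) = ((bernstein m k t : ℝ) : ℂ) * _
  rw [Complex.real_smul]

theorem t_TR0 (hTSB : S_TSB) (hMAT : S_TRMAT) : S_TR0 := by
  intro n B _ τ hτ d F hF
  set f : C(unitInterval, MM n) := (F : C(unitInterval, MM n)) with hf
  have key : ∀ m : ℕ, m ≠ 0 → ‖τ (d F)‖ ≤ ‖bernsteinApproximation m f - f‖ := by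
    intro m hm
    choose hmem hz using term_zero hMAT τ hτ d F hF m hm
    let S : dimDrop n := ∑ k : Fin (m + 1), ⟨_, hmem k⟩
    have hS : τ (d S) = 0 := by
      change τ (d (∑ k : Fin (m + 1), ⟨_, hmem k⟩)) = 0
      rw [map_sum, map_sum]
      exact Finset.sum_eq_zero fun k _ => hz k
    have hS2 : (S : C(unitInterval, MM n)) = bernsteinApproximation m f := by
      rw [bern_eq]
      change ((∑ k : Fin (m + 1), (⟨_, hmem k⟩ : dimDrop n) : dimDrop n) :
        C(unitInterval, MM n)) = _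
      rw [AddSubmonoidClass.coe_finsetSum]
    have h1 : τ (d F) = -τ (d (S - F)) := by
      rw [map_sub d, map_sub τ, hS]
      ring
    rw [h1, norm_neg]
    refine ((hTSB B τ hτ).1 _).trans ((norm_le d _).trans (le_of_eq ?_))
    congr 1
    rw [← hS2]
    rfl
  have hlim := tendsto_iff_norm_sub_tendsto_zero.1 (bernsteinApproximation_uniform f)
  have h2 : ‖τ (d F)‖ ≤ 0 := by
    refine ge_of_tendsto hlim ?_
    filter_upwards [Filter.eventually_ne_atTop 0] with m hm
    exact key m hm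
  exact norm_le_zero_iff.1 h2

end Pool.Agent.H308R2.ZS.T_TR0
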